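import Pool.Agent.H.MP_ff3fe0_an.B

namespace Pool.Agent.Results.MP_ff3fe0_an.No

open Real MeasureTheory Set Filter Topology Pool.Agent.H.MP_ff3fe0_an
open scoped ContDiff

/-- The spherical maximal function in the plane `ℂ = ℝ²`: the supremum over radii `t > 0` of the
average of `|f|` over the circle of centre `x` and radius `t`. -/
noncomputable def MS (f : ℂ → ℝ) (x : ℂ) : ℝ :=
  ⨆ t : Ioi (0 : ℝ), circleAverage (fun z => |f z|) x t

/-- `g` is a weak gradient of `u` on the plane. -/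
def WeakGrad (u : ℂ → ℝ) (g : ℂ → ℂ →L[ℝ] ℝ) : Prop :=
  LocallyIntegrable u ∧ LocallyIntegrable g ∧ ∀ φ : ℂ → ℝ, ContDiff ℝ ∞ φ → HasCompactSupport φ →
    ∀ v : ℂ, ∫ x, u x * fderiv ℝ φ x v = -∫ x, g x v * φ x

/-- The centres. -/
noncomputable def S (N : ℕ) (e : ℝ) : Finset ℝ :=
  (Finset.range N).image (fun i : ℕ => -1 + 8 * (i : ℝ) * e) ∪
    (Finset.range N).image fun j : ℕ => 1 + 8 * ((j * N : ℕ) : ℝ) * e

lemma S_ok {N : ℕ} {e : ℝ} (he : 0 < e) (h : 800 * N ^ 2 * e = 1) : ∀ c ∈ S N e, Ok e c := by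
  have k : ∀ n : ℕ, n ≤ N ^ 2 → 0 ≤ ((n : ℤ) : ℝ) * e ∧ 8 * ((n : ℤ) : ℝ) * e ≤ 0.01 := fun n hn => by
    have : (n : ℝ) ≤ N ^ 2 := by exact_mod_cast hn
    push_cast
    exact ⟨by positivity, by nlinarith⟩
  intro c hc
  simp only [S, Finset.mem_union, Finset.mem_image, Finset.mem_range] at hc
  rcases hc with ⟨i, hi, rfl⟩ | ⟨i, hi, rfl⟩
  · exact ⟨i, (k i (by nlinarith)).1, (k i (by nlinarith)).2, Or.inl (by simp)⟩
  · exact ⟨(i * N : ℕ), (k _ (by nlinarith)).1, (k _ (by nlinarith)).2, Or.inr (by simp)⟩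

lemma lower {N : ℕ} {e : ℝ} (he : 0 < e) (h : 800 * N ^ 2 * e = 1) {g : ℂ → ℂ →L[ℝ] ℝ}
    (hg : WeakGrad (MS (F e (S N e))) g) :
    0.06 / 800 * ∫ s, η s ≤ ∫ x in Metric.closedBall 0 1, ‖g x‖ := by
  have hN : 0 < N := Nat.pos_of_ne_zero (by rintro rfl; simp at h)
  have hN1 : (1 : ℝ) ≤ N := by exact_mod_cast hN
  have he2 : e ≤ 0.01 := by nlinarith
  obtain ⟨hu, hg, hw⟩ := hg
  let φ : ℕ → ℂ → ℝ := fun k x => T e (4 * k * e) x - T e (4 * k * e + 2 * e) x
  have s1 : ∀ k, ContDiff ℝ ∞ (φ k) := fun k => (T_smooth _ _).sub (T_smooth _ _)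
  have s2 : ∀ k, HasCompactSupport (φ k) := fun k => box fun x hx => φ_ne he hx
  have kk : ∀ k ∈ Finset.range (N ^ 2), 0 ≤ 4 * (k : ℝ) * e ∧ 4 * (k : ℝ) * e + 4 * e ≤ 0.01 := by
    intro k hk
    have : (k + 1 : ℝ) ≤ N ^ 2 := by exact_mod_cast Finset.mem_range.1 hk
    exact ⟨by positivity, by nlinarith⟩
  have j : ∀ k ∈ Finset.range (N ^ 2), 0.06 * e * ∫ s, η s ≤ -∫ x, g x 1 * φ k x := by
    intro k hk
    obtain ⟨k1, k2⟩ := kk k hk
    rw [← hw _ (s1 k) (s2 k)]
    refine jump he _ hu (fun x h1 h2 h3 => ?_) fun x h1 h2 h3 =>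
      M_low he he2 (S_ok he h) (by linarith) (by linarith) h1 k (by exact_mod_cast h2)
        (by exact_mod_cast h3)
    have e1 : ((k % N : ℕ) : ℝ) + (k / N * N : ℕ) = k := by exact_mod_cast Nat.mod_add_div' k N
    have a1 : -1 + 8 * ((k % N : ℕ) : ℝ) * e ∈ S N e :=
      Finset.mem_union_left _ (Finset.mem_image_of_mem _ (Finset.mem_range.2 (Nat.mod_lt _ hN)))
    have a2 : 1 + 8 * ((k / N * N : ℕ) : ℝ) * e ∈ S N e :=
      Finset.mem_union_right _ (Finset.mem_image_of_mem _ (Finset.mem_range.2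
        (Nat.div_lt_of_lt_mul (by simpa [sq] using hk))))
    have e2 : ((k % N : ℕ) : ℝ) * e + (k / N * N : ℕ) * e = k * e := by rw [← add_mul, e1]
    have e3 : 0 ≤ ((k / N * N : ℕ) : ℝ) * e := by positivity
    exact M_high he he2 (S_ok he h) (by linarith) (by linarith) h1 a1 a2 (by linarith)
      (abs_le.2 ⟨by linarith, by linarith⟩)
  have g1 : LocallyIntegrable fun x => g x 1 := fun x =>
    let ⟨s, h1, h2⟩ := hg x
    ⟨s, h1, (ContinuousLinearMap.apply ℝ ℝ (1 : ℂ)).integrable_comp h2⟩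
  have i1 : ∀ k ∈ Finset.range (N ^ 2), Integrable fun x => g x 1 * φ k x := fun k _ =>
    g1.integrable_smul_right_of_hasCompactSupport (s1 k).continuous (s2 k)
  have j2 := Finset.sum_le_sum j
  rw [Finset.sum_neg_distrib, ← integral_finsetSum _ i1, Finset.sum_const, Finset.card_range,
    nsmul_eq_mul, ← integral_neg] at j2
  have i2 : IntegrableOn (fun x => ‖g x‖) (Metric.closedBall 0 1) :=
    (hg.integrableOn_isCompact (isCompact_closedBall 0 1)).norm
  rw [← integral_indicator measurableSet_closedBall]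
  refine le_trans (le_of_eq ?_) (j2.trans (integral_mono (integrable_finsetSum _ i1).neg
    (i2.integrable_indicator measurableSet_closedBall) fun x => ?_))
  · push_cast
    linear_combination (-0.06 / 800 * ∫ s, η s) * h
  · simp only [← Finset.mul_sum]
    by_cases hx : x ∈ Metric.closedBall (0 : ℂ) 1
    · rw [indicator_of_mem hx]
      have b1 : ‖∑ k ∈ Finset.range (N ^ 2), φ k x‖ ≤ 1 :=
        one_term _ _ zero_le_one (fun k _ => φ_le _ _ _) fun k _ l _ hkl => by
          by_contra h1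
          push Not at h1
          obtain ⟨-, b1, b2⟩ := φ_ne he h1.1
          obtain ⟨-, b3, b4⟩ := φ_ne he h1.2
          rcases lt_or_gt_of_ne hkl with h2 | h2
          · have : (k + 1 : ℝ) ≤ l := by exact_mod_cast h2
            nlinarith
          · have : (l + 1 : ℝ) ≤ k := by exact_mod_cast h2
            nlinarith
      refine (neg_le_abs _).trans ?_
      rw [abs_mul]
      exact (mul_le_of_le_one_right (abs_nonneg _) b1).trans (by simpa using (g x).le_opNorm 1)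
    · rw [indicator_of_notMem hx, Finset.sum_eq_zero, mul_zero, neg_zero]
      intro k hk
      by_contra h1
      obtain ⟨b0, b1, b2⟩ := φ_ne he h1
      obtain ⟨k1, k2⟩ := kk k hk
      refine hx (mem_closedBall_zero_iff.2 ((Complex.norm_le_abs_re_add_abs_im x).trans ?_))
      rw [abs_of_nonneg (by linarith)]
      linarith

theorem result (p : ℝ) (hp : 1 < p) (hp' : p < 3 / 2) :
    ¬ ∃ C : ℝ, ∀ f : ℂ → ℝ, ContDiff ℝ ∞ f → HasCompactSupport f →
      ∃ g : ℂ → ℂ →L[ℝ] ℝ, WeakGrad (MS f) g ∧ eLpNorm g (ENNReal.ofReal p) volume ≤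
        ENNReal.ofReal C * (eLpNorm f (ENNReal.ofReal p) volume +
          eLpNorm (fderiv ℝ f) (ENNReal.ofReal p) volume) := by
  rintro ⟨C, hC⟩
  obtain ⟨D, hD0, hD⟩ := β_bd
  have hp0 : 0 < p := by linarith
  have hq : 0 ≤ 1 - 1 / p := by rw [sub_nonneg, div_le_one hp0]; exact hp.le
  have key : ∀ N : ℕ, 0 < N → 0.06 / 800 * ∫ s, η s ≤
      |C| * (1 + 800 * D) * π ^ (1 - 1 / p) * (N : ℝ) ^ (-(3 / p - 2)) := by
    intro N hN
    have hN1 : (1 : ℝ) ≤ N := by exact_mod_cast hN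
    obtain ⟨e, he, h⟩ : ∃ e : ℝ, 0 < e ∧ 800 * N ^ 2 * e = 1 :=
      ⟨(800 * N ^ 2)⁻¹, by positivity, mul_inv_cancel₀ (by positivity)⟩
    have he2 : e ≤ 0.01 := by nlinarith
    obtain ⟨g, hg, hb⟩ := hC _ (F_smooth e (S N e)) (F_cpt he _)
    have hV : volume (U e (S N e)) ≤ ENNReal.ofReal ((N : ℝ) ^ (-3 : ℝ)) := by
      refine (U_vol he _).trans (ENNReal.ofReal_le_ofReal ?_)
      have c1 : (S N e).card ≤ N + N := (Finset.card_union_le _ _).trans
        (add_le_add (Finset.card_image_le.trans_eq (Finset.card_range _))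
          (Finset.card_image_le.trans_eq (Finset.card_range _)))
      have c2 : ((S N e).card : ℝ) ≤ N + N := by exact_mod_cast c1
      rw [rpow_neg (by positivity), rpow_ofNat, ← one_div, le_div_iff₀ (by positivity)]
      refine (mul_le_mul_of_nonneg_right (mul_le_mul c2 (mul_le_mul_of_nonneg_left pi_le_four
        (by positivity)) (by positivity) (by positivity)) (by positivity)).trans ?_
      have : (N : ℝ) ^ 2 * e = 1 / 800 := by linarith
      calc _ = 32 * ((N : ℝ) ^ 2 * e) ^ 2 := by ring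
        _ ≤ 1 := by rw [this]; norm_num
    have l1 := lp_le zero_le_one (by positivity) hp0 (F_le he he2 (S_ok he h))
      (fun z hz => (F_U he hz).1) hV
    have l2 := lp_le (by positivity) (by positivity) hp0 (F_fd_le he he2 (S_ok he h) hD0 hD)
      (fun z hz => (F_U he hz).2) hV
    have i2 := hg.2.1.integrableOn_isCompact (isCompact_closedBall 0 1)
    have l3 := eLpNorm_le_eLpNorm_mul_rpow_measure_univ (ENNReal.one_le_ofReal.2 hp.le) i2.1
    rw [eLpNorm_one_eq_lintegral_enorm, ← ofReal_integral_norm_eq_lintegral_enorm i2,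
      Measure.restrict_apply_univ, Complex.volume_closedBall, ENNReal.toReal_ofReal hp0.le,
      ENNReal.ofReal_one, one_pow, one_mul, ENNReal.toReal_one, div_one, ← ENNReal.ofReal_coe_nnreal,
      NNReal.coe_real_pi, ENNReal.ofReal_rpow_of_nonneg pi_pos.le hq] at l3
    have l4 := (ENNReal.ofReal_le_ofReal (lower he h hg)).trans (l3.trans (mul_le_mul_left
      ((eLpNorm_restrict_le _ _ _ _).trans (hb.trans (mul_le_mul'
        (ENNReal.ofReal_le_ofReal (le_abs_self C)) (add_le_add l1 l2)))) _))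
    rw [← ENNReal.ofReal_add (by positivity) (by positivity), ← ENNReal.ofReal_mul (abs_nonneg _),
      ← ENNReal.ofReal_mul (by positivity), ENNReal.ofReal_le_ofReal_iff (by positivity),
      ← rpow_mul (by positivity), ← add_mul] at l4
    refine l4.trans ?_
    have e1 : e⁻¹ = 800 * N ^ 2 := (eq_inv_of_mul_eq_one_left h).symm
    have e2 : (N : ℝ) ^ (-(3 / p - 2)) = N ^ 2 * (N : ℝ) ^ (-3 * (1 / p)) := by
      rw [← rpow_natCast, ← rpow_add (by positivity)]; congr 1; push_cast; ring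
    have e3 : 1 + e⁻¹ * D ≤ (1 + 800 * D) * N ^ 2 := by rw [e1]; nlinarith
    rw [e2]
    calc _ ≤ |C| * ((1 + 800 * D) * N ^ 2 * (N : ℝ) ^ (-3 * (1 / p))) * π ^ (1 - 1 / p) := by gcongr
      _ = _ := by ring
  have ht := ((tendsto_rpow_neg_atTop (y := 3 / p - 2) (by
    rw [sub_pos, lt_div_iff₀ hp0]; linarith)).comp tendsto_natCast_atTop_atTop).const_mul
    (|C| * (1 + 800 * D) * π ^ (1 - 1 / p))
  have := ge_of_tendsto ht ((eventually_gt_atTop 0).mono key)
  linarith [η_pos]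

end Pool.Agent.Results.MP_ff3fe0_an.No
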